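import Pool.Agent.SPH.Assembly6
import Pool.Agent.SPJ.Abs

/-!
# The condition `Trit` for abelian varieties of small dimension and for CM fields of degree `2 l`
-/

set_option linter.unusedSectionVars false

open scoped BigOperators Topology
open Matrix

namespace Pool.Agent.SPJ

open Pool.Agent.DRB

noncomputable section

variable {g : ℕ}

/-! ### separation of the CM components by their types -/

theorem finite_comp (A : AbVar g) : {p | A.IsComp p}.Finite ∧ {p | A.IsComp p}.ncard ≤ 2 * g := by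
  classical
  obtain ⟨d⟩ := decC g A
  have hsub : {p : Matrix (Idx g) (Idx g) ℂ | A.IsComp p} = Set.range d.p := by
    ext p
    constructor
    · intro hp
      obtain ⟨i, hi⟩ := (d.comp p).1 hp
      exact ⟨i, hi.symm⟩
    · rintro ⟨i, rfl⟩
      exact d.isComp i
  refine ⟨hsub ▸ Set.finite_range d.p, ?_⟩
  rw [hsub, ← Set.image_univ, Set.ncard_image_of_injective _ d.p_injective, Set.ncard_univ,
    Nat.card_eq_fintype_card, Fintype.card_fin]
  have h1 : Fintype.card (Σ i, Fin (d.m i) × Fin (d.n i)) = 2 * g := by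
    have h2 := Module.finrank_eq_card_basis d.B
    rw [Module.finrank_fintype_fun_eq_card] at h2
    rw [← h2]
    simp [Idx, two_mul]
  rw [← h1, Fintype.card_sigma]
  calc d.k = ∑ _i : Fin d.k, 1 := by simp
    _ ≤ _ := Finset.sum_le_sum fun i _ => by
      rw [Fintype.card_prod, Fintype.card_fin, Fintype.card_fin]
      exact Nat.mul_pos (d.mpos i) (d.npos i)

theorem smul_mulVec_B {A : AbVar g} (d : Dec A) {x : Matrix (Idx g) (Idx g) ℂ} {i : Fin d.k} {y : ℂ}
    (h : x * d.p i = y • d.p i) (a : Fin (d.m i)) (b : Fin (d.n i)) :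
    x *ᵥ d.B ⟨i, (a, b)⟩ = y • d.B ⟨i, (a, b)⟩ := by
  have h1 : d.p i *ᵥ d.B ⟨i, (a, b)⟩ = d.B ⟨i, (a, b)⟩ := by
    rw [d.hp i ⟨i, (a, b)⟩, if_pos rfl]
  conv_lhs => rw [← h1]
  rw [Matrix.mulVec_mulVec, h, Matrix.smul_mulVec, h1]

theorem X_smul {A : AbVar g} (d : Dec A) {x : Matrix (Idx g) (Idx g) ℂ} {i : Fin d.k} {y : ℂ}
    (h : x * d.p i = y • d.p i) : d.X x i = y • 1 := by
  ext a' a
  show d.B.repr (x *ᵥ d.B ⟨i, (a, ⟨0, d.npos i⟩)⟩) ⟨i, (a', ⟨0, d.npos i⟩)⟩ = _
  rw [smul_mulVec_B d h, map_smul, Module.Basis.repr_self, Finsupp.smul_apply, Finsupp.single_apply,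
    Matrix.smul_apply, Matrix.one_apply]
  congr 1
  by_cases he : a' = a
  · subst he
    rw [if_pos rfl, if_pos rfl]
  · rw [if_neg, if_neg he]
    intro h'
    apply he
    have := congrArg (fun e : (Σ i, Fin (d.m i) × Fin (d.n i)) => (e.2.1 : ℕ)) h'
    exact Fin.ext this.symm

theorem sepCM (A : AbVar g) {p q : Matrix (Idx g) (Idx g) ℂ} (hp : A.IsCM p) (hq : A.IsCM q)
    (hpq : p ≠ q) : ∃ σ : ℂ ≃ₐ[ℚ] ℂ, ¬ (A.Hol (p.map σ) ↔ A.Hol (q.map σ)) := by
  classical
  by_contra hcon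
  push Not at hcon
  -- the elements of the Mumford-Tate group act by the same scalar
  have key : ∀ x ∈ SPH.MTg A, ∃ y : ℂ, y ≠ 0 ∧ x.1.val * p = y • p ∧ x.1.val * q = y • q := by
    intro x hx
    unfold SPH.MTg at hx
    induction hx using Subgroup.closure_induction with
    | mem x hx =>
      obtain ⟨σ, z, x0, hmu, hx1, -⟩ := hx
      have hval : ∀ r : Matrix (Idx g) (Idx g) ℂ, A.IsCM r →
          x.1.val * r = (σ (if A.Hol (r.map σ.symm) then z.val else 1)) • r := by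
        intro r hr
        have hr' := (SPG.pholC g A r hr).1 σ.symm
        obtain ⟨y0, hy0⟩ := (SPG.pholC g A _ hr').2.2.2.2 x0.val (SPG.MU_.mu_comm hmu)
        have h1 := SPH.H54BH_.mu_val SPG.pholC hmu hr' hy0
        have hback : (r.map σ.symm).map σ = r := by
          ext i j
          simp
        rw [← h1, hx1]
        conv_lhs => rw [← hback]
        rw [← Matrix.map_mul, hy0]
        ext i j
        simp
      refine ⟨σ (if A.Hol (p.map σ.symm) then z.val else 1), ?_, hval p hp, ?_⟩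
      · rw [Ne, map_eq_zero_iff σ σ.injective]
        split_ifs
        · exact z.ne_zero
        · exact one_ne_zero
      · rw [hval q hq]
        congr 2
        exact if_congr (hcon σ.symm).symm rfl rfl
    | one => exact ⟨1, one_ne_zero, by simp, by simp⟩
    | mul x x' _ _ h1 h2 =>
      obtain ⟨y, hy, h1p, h1q⟩ := h1
      obtain ⟨y', hy', h2p, h2q⟩ := h2
      refine ⟨y * y', mul_ne_zero hy hy', ?_, ?_⟩
      · show x.1.val * x'.1.val * p = _
        rw [Matrix.mul_assoc, h2p, Matrix.mul_smul, h1p, smul_smul, mul_comm]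
      · show x.1.val * x'.1.val * q = _
        rw [Matrix.mul_assoc, h2q, Matrix.mul_smul, h1q, smul_smul, mul_comm]
    | inv x _ h1 =>
      obtain ⟨y, hy, h1p, h1q⟩ := h1
      have hinv : ∀ r : Matrix (Idx g) (Idx g) ℂ, x.1.val * r = y • r →
          (x⁻¹).1.val * r = y⁻¹ • r := by
        intro r hr
        have h3 : (x⁻¹).1.val * (x.1.val * r) = r := by
          rw [← Matrix.mul_assoc]
          have : (x⁻¹).1.val * x.1.val = 1 := by
            show (x.1⁻¹).val * x.1.val = 1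
            rw [← Units.val_mul, inv_mul_cancel, Units.val_one]
          rw [this, Matrix.one_mul]
        rw [hr, Matrix.mul_smul] at h3
        calc (x⁻¹).1.val * r = (y⁻¹ * y) • ((x⁻¹).1.val * r) := by
              rw [inv_mul_cancel₀ hy, one_smul]
          _ = y⁻¹ • (y • ((x⁻¹).1.val * r)) := (smul_smul _ _ _).symm
          _ = y⁻¹ • r := by rw [h3]
      exact ⟨y⁻¹, inv_ne_zero hy, hinv p h1p, hinv q h1q⟩
  obtain ⟨d⟩ := decC g A
  obtain ⟨i, rfl⟩ := (d.comp p).1 hp.1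
  obtain ⟨j, rfl⟩ := (d.comp q).1 hq.1
  have hij : i ≠ j := fun h => hpq (by rw [h])
  let P : Matrix (Fin (d.m i)) (Fin (d.m j)) ℂ := Matrix.of fun _ _ => 1
  have hP : P = 0 := by
    refine (SPH.hfinxC g A d).1 i j hij P ?_
    refine Set.Finite.subset (Set.finite_singleton P) ?_
    rintro Y ⟨x, hx, rfl⟩
    obtain ⟨y, hy, h1, h2⟩ := key x hx
    obtain ⟨y', hy', h1', h2'⟩ := key x⁻¹ ((SPH.MTg A).inv_mem hx)
    have h3 : y * y' = 1 := by
      have h4 : x.1.val * ((x⁻¹).1.val * d.p i) = d.p i := by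
        rw [← Matrix.mul_assoc]
        have : x.1.val * (x⁻¹).1.val = 1 := by
          show x.1.val * (x.1⁻¹).val = 1
          rw [← Units.val_mul, mul_inv_cancel, Units.val_one]
        rw [this, Matrix.one_mul]
      rw [h1', Matrix.mul_smul, h1, smul_smul] at h4
      have h5 : (y' * y) • d.p i = (1 : ℂ) • d.p i := by rw [h4, one_smul]
      have h6 := SPG.H54B_.smul_inj hp.1.2.1 h5
      rw [mul_comm]; exact h6
    rw [Set.mem_singleton_iff]
    have e1 : d.X x.1.val i = y • 1 := X_smul d h1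
    have e2 : d.X (x.1⁻¹).val j = y' • 1 := X_smul d h2'
    rw [e1, e2, Matrix.smul_mul, Matrix.one_mul, Matrix.mul_smul, Matrix.mul_one, smul_smul]
    rw [mul_comm y' y, h3, one_smul]
  have := congrFun (congrFun hP ⟨0, d.mpos i⟩) ⟨0, d.mpos j⟩
  exact one_ne_zero this

/-! ### transfer -/

theorem hcm (A : AbVar g) : ∀ p, A.IsCM p → ∀ σ : ℂ ≃ₐ[ℚ] ℂ, A.IsCM (p.map σ) :=
  fun p hp => (SPG.pholC g A p hp).1

open SPG (conjE) in
theorem cc_conjE (p : Matrix (Idx g) (Idx g) ℂ) : p.map conjE = cc p := rfl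

/-- If the abstract condition holds for all subgroups, then `Trit` holds. -/
theorem trit_of_abs (A : AbVar g)
    (habs : ∀ [Fintype (SPG.AB4_.CC A)] [DecidableEq (SPG.AB4_.CC A)] (c : Equiv.Perm (SPG.AB4_.CC A))
      (h : SPG.AB4_.CC A → ℤ) (R : AddSubgroup (SPG.AB4_.CC A → ℤ)),
      Dat (SPG.AB4_.rho (hcm A)).range c h →
      (∀ g ∈ (SPG.AB4_.rho (hcm A)).range, ∀ n ∈ R, (fun p => n (g p)) ∈ R) →
      (∃ n ∈ R, ∃ g ∈ (SPG.AB4_.rho (hcm A)).range, ty h n g ≠ 0) →
      HasTrit (SPG.AB4_.rho (hcm A)).range h R) : A.Trit := by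
  classical
  intro R hR hst hex
  have hfin : Finite (SPG.AB4_.CC A) := by
    refine ((finite_comp A).1.subset ?_).to_subtype
    intro p hp
    exact hp.1
  let _ : Fintype (SPG.AB4_.CC A) := Fintype.ofFinite _
  let h : SPG.AB4_.CC A → ℤ := fun p => if A.Hol p.1 then 1 else -1
  let c : Equiv.Perm (SPG.AB4_.CC A) := SPG.AB4_.rho (hcm A) SPG.conjE
  have hcval : ∀ p : SPG.AB4_.CC A, (c p).1 = cc p.1 := fun p => rfl
  have hrval : ∀ (σ : ℂ ≃ₐ[ℚ] ℂ) (p : SPG.AB4_.CC A), (SPG.AB4_.rho (hcm A) σ p).1 = p.1.map σ :=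
    fun σ p => rfl
  -- values of a finitely supported function
  let V : (Matrix (Idx g) (Idx g) ℂ →₀ ℤ) → SPG.AB4_.CC A → ℤ := fun n p => n p.1
  have htyp : ∀ n ∈ R, ∀ σ : ℂ ≃ₐ[ℚ] ℂ, ty h (V n) (SPG.AB4_.rho (hcm A) σ) = A.typ n σ := by
    intro n hn σ
    unfold ty AbVar.typ
    rw [Finsupp.sum]
    have h1 : ∀ p : Matrix (Idx g) (Idx g) ℂ, (if A.Hol (p.map σ) then n p else - n p) =
        n p * (if A.Hol (p.map σ) then 1 else -1) := by
      intro p
      split_ifs <;> ring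
    rw [Finset.sum_congr rfl fun p _ => h1 p]
    have h2 : ∑ q : SPG.AB4_.CC A, n q.1 * (if A.Hol (q.1.map σ) then (1 : ℤ) else -1) =
        ∑ p ∈ Finset.univ.map ⟨(Subtype.val : SPG.AB4_.CC A → _), Subtype.val_injective⟩,
          n p * (if A.Hol (p.map σ) then (1 : ℤ) else -1) := by
      rw [Finset.sum_map]
      rfl
    have h3 : ∑ p ∈ n.support, n p * (if A.Hol (p.map σ) then (1 : ℤ) else -1) =
        ∑ p ∈ Finset.univ.map ⟨(Subtype.val : SPG.AB4_.CC A → _), Subtype.val_injective⟩,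
          n p * (if A.Hol (p.map σ) then (1 : ℤ) else -1) := by
      refine Finset.sum_subset (fun p hp => ?_) (fun p _ hp => ?_)
      · rw [Finset.mem_map]
        exact ⟨⟨p, hR n hn p hp⟩, Finset.mem_univ _, rfl⟩
      · rw [Finsupp.notMem_support_iff.1 hp, zero_mul]
    rw [h3, ← h2]
    rfl
  let R' : AddSubgroup (SPG.AB4_.CC A → ℤ) :=
    { carrier := {f | ∃ n ∈ R, f = V n}
      zero_mem' := ⟨0, R.zero_mem, rfl⟩
      add_mem' := by
        rintro _ _ ⟨n, hn, rfl⟩ ⟨m, hm, rfl⟩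
        exact ⟨n + m, R.add_mem hn hm, rfl⟩
      neg_mem' := by
        rintro _ ⟨n, hn, rfl⟩
        exact ⟨-n, R.neg_mem hn, rfl⟩ }
  have hst' : ∀ g ∈ (SPG.AB4_.rho (hcm A)).range, ∀ n ∈ R', (fun p => n (g p)) ∈ R' := by
    rintro _ ⟨σ, rfl⟩ _ ⟨n, hn, rfl⟩
    refine ⟨n.mapDomain fun p => p.map (σ⁻¹ : ℂ ≃ₐ[ℚ] ℂ), hst _ n hn, ?_⟩
    funext p
    show n (p.1.map σ) = (n.mapDomain fun p => p.map (σ⁻¹ : ℂ ≃ₐ[ℚ] ℂ)) p.1
    have h1 : p.1 = (fun p : Matrix (Idx g) (Idx g) ℂ => p.map (σ⁻¹ : ℂ ≃ₐ[ℚ] ℂ)) (p.1.map σ) := by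
      show p.1 = (p.1.map σ).map (σ⁻¹ : ℂ ≃ₐ[ℚ] ℂ)
      rw [← SPG.AB4_.map_map, inv_mul_cancel, SPG.AB4_.map_one]
    conv_rhs => rw [h1]
    rw [Finsupp.mapDomain_apply]
    intro a b hab
    have h2 := congrArg (fun q : Matrix (Idx g) (Idx g) ℂ => q.map σ) hab
    simp only [← SPG.AB4_.map_map, mul_inv_cancel, SPG.AB4_.map_one] at h2
    exact h2
  have D : Dat (SPG.AB4_.rho (hcm A)).range c h :=
    { cG := ⟨SPG.conjE, rfl⟩
      cc := fun p => by
        apply Subtype.ext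
        ext i j
        exact Complex.conj_conj _
      comm := by
        rintro _ ⟨σ, rfl⟩ p
        apply Subtype.ext
        show cc (p.1.map σ) = (cc p.1).map σ
        exact ((rosC g A p.1 p.2.1).2 σ).symm
      hh := fun p => by
        show (if A.Hol p.1 then (1 : ℤ) else -1) = 1 ∨ (if A.Hol p.1 then (1 : ℤ) else -1) = -1
        split_ifs
        · left; rfl
        · right; rfl
      hc := fun p => by
        have h1 := (SPG.pholC g A p.1 p.2).2.2.1
        show (if A.Hol (cc p.1) then (1 : ℤ) else -1) = -(if A.Hol p.1 then (1 : ℤ) else -1)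
        by_cases hH : A.Hol p.1
        · rw [if_pos hH, if_neg fun h2 => (h1.1 h2) hH]
        · rw [if_neg hH, if_pos (h1.2 hH)]
          ring
      sep := fun p q hpq => by
        obtain ⟨σ, hσ⟩ := sepCM A p.2 q.2 fun h => hpq (Subtype.ext h)
        refine ⟨_, ⟨σ, rfl⟩, fun h1 => hσ ?_⟩
        have h2 : (if A.Hol (p.1.map σ) then (1 : ℤ) else -1) =
          if A.Hol (q.1.map σ) then (1 : ℤ) else -1 := h1
        by_cases h3 : A.Hol (p.1.map σ) <;> by_cases h4 : A.Hol (q.1.map σ)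
        · exact ⟨fun _ => h4, fun _ => h3⟩
        · rw [if_pos h3, if_neg h4] at h2
          norm_num at h2
        · rw [if_neg h3, if_pos h4] at h2
          norm_num at h2
        · exact ⟨fun h5 => absurd h5 h3, fun h5 => absurd h5 h4⟩ }
  obtain ⟨_, ⟨n, hn, rfl⟩, k, ⟨_, ⟨σ, rfl⟩, hne⟩, hall⟩ := habs c h R' D hst' (by
    obtain ⟨n, hn, σ, hσ⟩ := hex
    refine ⟨V n, ⟨n, hn, rfl⟩, _, ⟨σ, rfl⟩, ?_⟩
    rw [htyp n hn σ]
    exact hσ)
  refine ⟨n, hn, k, ⟨σ, ?_⟩, fun τ => ?_⟩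
  · rw [← htyp n hn σ]; exact hne
  · rw [← htyp n hn τ]; exact hall _ ⟨τ, rfl⟩

/-- At most three pairs of CM components. -/
theorem trit_of_ncard_le (A : AbVar g) (h6 : {p | A.IsCM p}.ncard ≤ 6) : A.Trit := by
  refine trit_of_abs A fun {_} {_} c h R D hst hex => trit_small D hst hex ?_
  rw [← Nat.card_eq_fintype_card]
  exact h6

/-- The CM components are permuted transitively, their number is `2 l`, `l` a prime. -/
theorem trit_of_prime (A : AbVar g) (l : ℕ) (hl : l.Prime) (hcard : {p | A.IsCM p}.ncard = 2 * l)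
    (htr : ∀ p q, A.IsCM p → A.IsCM q → ∃ σ : ℂ ≃ₐ[ℚ] ℂ, p.map σ = q) : A.Trit := by
  refine trit_of_abs A fun {_} {_} c h R D hst hex => trit_prime D hst hex l hl ?_ ?_
  · rw [← Nat.card_eq_fintype_card]
    exact hcard
  · intro p q
    obtain ⟨σ, hσ⟩ := htr p.1 q.1 p.2 q.2
    exact ⟨_, ⟨σ, rfl⟩, Subtype.ext hσ⟩

/-- The condition `cm` of the class holds for all abelian varieties of dimension at most three. -/
theorem trit_of_dim_le_three (A : AbVar g) (hg : g ≤ 3) : A.Trit := by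
  refine trit_of_ncard_le A ?_
  have h1 := finite_comp A
  have h2 : {p | A.IsCM p}.ncard ≤ {p | A.IsComp p}.ncard :=
    Set.ncard_le_ncard (fun p hp => hp.1) h1.1
  have h3 := h1.2
  omega

/-- If all nonreal components have multiplicity one and the real ones multiplicity at most two, the class
is determined by `Trit`. -/
theorem rank2CM_of_trit (A : AbVar g) (hle : ∀ p, A.IsComp p → A.comDim p ≤ 4)
    (hre : ∀ p, A.IsComp p → A.comDim p = 4 → cc p = p) (ht : A.Trit) : A.Rank2CM :=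
  { le := hle
    sep := fun p q hp hq h1 h2 h3 _ _ => absurd (hre p hp h1) h3
    u := by
      intro R h0 hodd hst hex
      obtain ⟨n, hn, p, hp4, hnp⟩ := hex
      exfalso
      have hp : A.IsComp p := by
        by_contra hcon
        exact hnp (h0 n hn p hcon)
      have h1 := hodd n hn p
      rw [hre p hp hp4] at h1
      exact hnp (by omega)
    cm := Or.inr ht }

/-- `A` is isogenous to a power of a simple abelian variety of dimension `l` with complex multiplication: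
the components have multiplicity one, they are conjugate, and their number is `2 l`. -/
def CMPow (A : AbVar g) (l : ℕ) : Prop :=
  (∀ p, A.IsComp p → A.comDim p = 1) ∧
  (∀ p q, A.IsComp p → A.IsComp q → ∃ σ : ℂ ≃ₐ[ℚ] ℂ, p.map σ = q) ∧
  {p | A.IsComp p}.ncard = 2 * l

theorem rank2CM_of_prime (A : AbVar g) (l : ℕ) (hl : l.Prime) (hA : CMPow A l) : A.Rank2CM := by
  obtain ⟨h1, h2, h3⟩ := hA
  have h4 : {p | A.IsCM p} = {p | A.IsComp p} := by
    ext p
    exact ⟨fun h => h.1, fun h => ⟨h, h1 p h⟩⟩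
  refine rank2CM_of_trit A (fun p hp => by rw [h1 p hp]; norm_num)
    (fun p hp h5 => by rw [h1 p hp] at h5; norm_num at h5)
    (trit_of_prime A l hl (by rw [h4]; exact h3) fun p q hp hq => h2 p q hp.1 hq.1)

theorem rank2CM_of_dim_le_three (A : AbVar g) (hg : g ≤ 3)
    (hA : ∀ p, A.IsComp p → A.comDim p = 1 ∨ (A.comDim p = 4 ∧ cc p = p)) : A.Rank2CM :=
  rank2CM_of_trit A
    (fun p hp => by rcases hA p hp with h | h; · rw [h]; norm_num
                    · rw [h.1])
    (fun p hp h5 => by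
      rcases hA p hp with h | h
      · rw [h] at h5; norm_num at h5
      · exact h.2)
    (trit_of_dim_le_three A hg)

end

end Pool.Agent.SPJ
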